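import Mathlib
import Pool.Agent.W2helper44.PT.Stm

set_option autoImplicit false

namespace Pool.Agent.W2helper19.PT

open Pool.Agent.W2helper44.PT

section
variable {k : Type} [Field k] {G : Type} [Group G] {M : Type} [AddCommGroup M] [Module k M]

/-- the algebra generated by the operators of `U` -/
noncomputable abbrev SS (U : Subgroup G) (r : G →* Module.End k M) : Subalgebra k (Module.End k M) :=
  Algebra.adjoin k (r '' (U : Set G))

/-- a subspace stable under `U`, as a submodule -/
def toSub (U : Subgroup G) (r : G →* Module.End k M) (W : Submodule k M)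
    (hW : ∀ g ∈ U, ∀ x ∈ W, r g x ∈ W) : Submodule (SS U r) M where
  carrier := W
  add_mem' := fun ha hb => W.add_mem ha hb
  zero_mem' := W.zero_mem
  smul_mem' := by
    intro c x hx
    obtain ⟨c, hc⟩ := c
    change c x ∈ W
    have hx' : x ∈ W := hx
    have key : ∀ x : M, x ∈ W → c x ∈ W := by
     refine Algebra.adjoin_induction (p := fun c _ => ∀ x : M, x ∈ W → c x ∈ W) ?_ ?_ ?_ ?_ hc
     · rintro c ⟨g, hg, rfl⟩ x hx
       exact hW g hg x hx
     · intro a x hx
       rw [Module.algebraMap_end_apply]
       exact W.smul_mem a hx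
     · intro a b _ _ ha hb x hx
       exact W.add_mem (ha x hx) (hb x hx)
     · intro a b _ _ ha hb x hx
       exact ha _ (hb x hx)
    exact key x hx'

theorem mem_toSub (U : Subgroup G) (r : G →* Module.End k M) (W : Submodule k M)
    (hW : ∀ g ∈ U, ∀ x ∈ W, r g x ∈ W) (x : M) : x ∈ toSub U r W hW ↔ x ∈ W := Iff.rfl

/-- the underlying subspace -/
def toK (U : Subgroup G) (r : G →* Module.End k M) (W : Submodule (SS U r) M) : Submodule k M where
  carrier := W
  add_mem' := fun ha hb => W.add_mem ha hb
  zero_mem' := W.zero_mem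
  smul_mem' := by
    intro c x hx
    have h := W.smul_mem (algebraMap k (SS U r) c) hx
    have e : (algebraMap k (SS U r) c) • x = c • x := by
      change (algebraMap k (Module.End k M) c) x = c • x
      rw [Module.algebraMap_end_apply]
    rw [e] at h
    exact h

theorem mem_toK (U : Subgroup G) (r : G →* Module.End k M) (W : Submodule (SS U r) M) (x : M) :
    x ∈ toK U r W ↔ x ∈ W := Iff.rfl

theorem toK_stable (U : Subgroup G) (r : G →* Module.End k M) (W : Submodule (SS U r) M) :
    ∀ g ∈ U, ∀ x ∈ toK U r W, r g x ∈ toK U r W := by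
  intro g hg x hx
  exact W.smul_mem (⟨r g, Algebra.subset_adjoin ⟨g, hg, rfl⟩⟩ : SS U r) hx

theorem r_inv (r : G →* Module.End k M) (g : G) (x : M) : r g⁻¹ (r g x) = x := by
  rw [← Module.End.mul_apply, ← map_mul, inv_mul_cancel, map_one, Module.End.one_apply]

/-- translate of a submodule -/
def cj (U : Subgroup G) (hU : U.Normal) (r : G →* Module.End k M) (g : G) (W : Submodule (SS U r) M) :
    Submodule (SS U r) M :=
  toSub U r ((toK U r W).comap (r g)) (by
    intro u hu x hx
    have h2 : r (g * u * g⁻¹) (r g x) ∈ toK U r W := toK_stable U r W _ (hU.conj_mem u hu g) _ hx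
    have e : r (g * u * g⁻¹) (r g x) = r g (r u x) := by
      rw [map_mul, Module.End.mul_apply, r_inv, map_mul, Module.End.mul_apply]
    rw [e] at h2
    exact h2)

theorem mem_cj (U : Subgroup G) (hU : U.Normal) (r : G →* Module.End k M) (g : G)
    (W : Submodule (SS U r) M) (x : M) : x ∈ cj U hU r g W ↔ r g x ∈ W := Iff.rfl

/-- translation as an order isomorphism -/
def cjIso (U : Subgroup G) (hU : U.Normal) (r : G →* Module.End k M) (g : G) :
    Submodule (SS U r) M ≃o Submodule (SS U r) M where
  toFun := cj U hU r g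
  invFun := cj U hU r g⁻¹
  left_inv := by
    intro W
    ext x
    rw [mem_cj, mem_cj]
    have e : r g (r g⁻¹ x) = x := by
      have := r_inv r g⁻¹ x
      rwa [inv_inv] at this
    rw [e]
  right_inv := by
    intro W
    ext x
    rw [mem_cj, mem_cj, r_inv]
  map_rel_iff' := by
    intro W W'
    constructor
    · intro h x hx
      have e : r g (r g⁻¹ x) = x := by
        have := r_inv r g⁻¹ x
        rwa [inv_inv] at this
      have h1 : r g⁻¹ x ∈ cj U hU r g W := by
        rw [mem_cj, e]; exact hx
      have h2 := h h1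
      change r g⁻¹ x ∈ cj U hU r g W' at h2
      rw [mem_cj, e] at h2
      exact h2
    · intro h x hx
      exact h hx

end

theorem p_cl : P_CL := by
  intro k _ G _ U hU M _ _ _ r hG W hW
  classical
  have hart : IsArtinian (SS U r) M := by
    have : IsScalarTower k (SS U r) M := inferInstance
    exact isArtinian_of_tower k inferInstance
  have : IsAtomic (Submodule (SS U r) M) := isAtomic_of_orderBot_wellFounded_lt (wellFounded_lt)
  set soc : Submodule (SS U r) M := sSup {m | IsAtom m} with hsoc
  have hinv : ∀ g, cj U hU r g soc = soc := by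
    intro g
    have h1 : cjIso U hU r g soc = soc := by
      rw [hsoc, OrderIso.map_sSup]
      apply le_antisymm
      · refine iSup₂_le fun m hm => ?_
        exact le_sSup ((OrderIso.isAtom_iff (cjIso U hU r g) m).2 hm)
      · refine sSup_le fun m hm => ?_
        have h2 : IsAtom ((cjIso U hU r g).symm m) := (OrderIso.isAtom_iff _ m).2 hm
        refine le_iSup₂_of_le ((cjIso U hU r g).symm m) h2 ?_
        rw [OrderIso.apply_symm_apply]
    exact h1
  have hst : ∀ g, ∀ x ∈ toK U r soc, r g x ∈ toK U r soc := by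
    intro g x hx
    have h1 : x ∈ cj U hU r g soc := by rw [hinv g]; exact hx
    exact h1
  obtain ⟨W', hW', hc⟩ := hG (toK U r soc) hst
  have hbot : toSub U r W' (fun g _ => hW' g) = ⊥ := by
    by_contra hne
    obtain ⟨a, ha, hle⟩ := (eq_bot_or_exists_atom_le (toSub U r W' (fun g _ => hW' g))).resolve_left hne
    have h1 : a ≤ soc := le_sSup ha
    apply ha.1
    rw [eq_bot_iff]
    intro x hx
    have h2 : x ∈ toK U r soc ⊓ W' := ⟨h1 hx, hle hx⟩
    rw [hc.inf_eq_bot] at h2
    exact (Submodule.mem_bot _).2 ((Submodule.mem_bot _).1 h2)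
  have hW'bot : W' = ⊥ := by
    rw [eq_bot_iff]
    intro x hx
    have h1 : x ∈ toSub U r W' (fun g _ => hW' g) := hx
    rw [hbot] at h1
    exact (Submodule.mem_bot _).2 ((Submodule.mem_bot _).1 h1)
  have htop : soc = ⊤ := by
    have h1 := hc.sup_eq_top
    rw [hW'bot, sup_bot_eq] at h1
    rw [eq_top_iff]
    intro x _
    have : x ∈ toK U r soc := by rw [h1]; exact Submodule.mem_top
    exact this
  have hss : IsSemisimpleModule (SS U r) M := by
    rw [← sSup_simples_eq_top_iff_isSemisimpleModule]
    have e : {m : Submodule (SS U r) M | IsSimpleModule (SS U r) m} = {m | IsAtom m} := by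
      ext m
      exact isSimpleModule_iff_isAtom
    rw [e]
    exact htop
  obtain ⟨V, hV⟩ := exists_isCompl (toSub U r W hW)
  refine ⟨toK U r V, toK_stable U r V, ?_⟩
  constructor
  · rw [disjoint_iff, eq_bot_iff]
    intro x hx
    have h1 : x ∈ toSub U r W hW ⊓ V := ⟨hx.1, hx.2⟩
    rw [hV.inf_eq_bot] at h1
    exact (Submodule.mem_bot _).2 ((Submodule.mem_bot _).1 h1)
  · rw [codisjoint_iff, eq_top_iff]
    intro x _
    have h1 : x ∈ toSub U r W hW ⊔ V := by rw [hV.sup_eq_top]; exact Submodule.mem_top
    obtain ⟨y, hy, z, hz, rfl⟩ := Submodule.mem_sup.1 h1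
    exact Submodule.add_mem_sup hy hz

end Pool.Agent.W2helper19.PT
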